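import Pool.Agent.N897.FO.Main
import Pool.Agent.N897.FO.Classes

/-!
# The order of a group and its number of conjugacy classes: few exceptional orders

For every `ε > 0` and all `n ≤ x` but at most `K x exp (- c √(log x))` every group `G` of order `n` satisfies
`|G| ≤ k(G) ^ (1 + ε)`. The same holds for the orders `F (m)` where `F` is a composition of additive functions (or of similar
functions), for all `m ≤ x` but `K x exp (- c (log x) ^ (1 / (j + 2)))`, `j` the number of the functions.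

Proof. It is sufficient to count the `n ≤ x` which are divisible by the square of a prime `p > y`, or by `p d` with `d > 1`,
`d ≡ 1` modulo `p` (up to small factors), or with a `y`-smooth part larger than `n ^ δ`, with `y = exp √(log x)` and
Rankin's method for the smooth part. All other groups have a cyclic subgroup `C` of index at most `n ^ δ`, and an
abelian subgroup `C` meets at least `|C| ^ 2 / |G|` classes. The preimages under functions dominated by the largest prime
factor of thin sets are thin (`Pool/Agent/N375/AV`, helper375).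
-/

set_option autoImplicit false

namespace Pool.Agent.Results.MP_34d05d_al.FewExceptionalOrders

open Pool.Agent.N897.FO (S orders values classes_of_good)
open Pool.Agent.N375.AV (PD comp pd_additive pd_largest pd_kempner)
open Pool.Agent.TH669.AD (GoodDeg)

/-- every group `G` of order `n` satisfies `|G| ≤ k(G) ^ (1 + ε)`, where `k(G)` is the number of the conjugacy classes -/
def SmallOrder (ε : ℝ) (n : ℕ) : Prop :=
  ∀ (G : Type) [Group G] [Finite G], Nat.card G = n → (n : ℝ) ≤ (Nat.card (ConjClasses G) : ℝ) ^ (1 + ε)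

/-- good orders -/
lemma small_of_good {ε : ℝ} (hε : 0 < ε) {n y : ℕ} (h0 : 0 < n) (h1 : S n ≤ y)
    (h3 : GoodDeg y (S n) ((n : ℝ) ^ (ε / (2 * (1 + ε)))) n) : SmallOrder ε n := by
  intro G _ _ hG
  have hn0 : (0 : ℝ) < n := by exact_mod_cast h0
  have h4 := classes_of_good h0 h1 h3 G hG
  have h5 : (1 - 2 * (ε / (2 * (1 + ε)))) * (1 + ε) = 1 := by
    field_simp
    ring
  calc (n : ℝ) = ((n : ℝ) ^ (1 - 2 * (ε / (2 * (1 + ε))))) ^ (1 + ε) := by
        rw [← Real.rpow_mul hn0.le, h5, Real.rpow_one]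
    _ ≤ (Nat.card (ConjClasses G) : ℝ) ^ (1 + ε) := Real.rpow_le_rpow (by positivity) h4 (by linarith)

/-- **Few exceptional orders.** (1) For `ε > 0` all but `K x exp (- c √(log x))` of the `n ≤ x` satisfy `SmallOrder ε n`:
`|G| ≤ k(G) ^ (1 + ε)` for every group `G` of order `n`. (2) The same for the numbers `F (m)`, `F` a composition of functions
dominated by the largest prime factor. (3) Examples of such functions. -/
theorem result :
    (∀ ε : ℝ, 0 < ε →
      (∃ c K : ℝ, 0 < c ∧ ∀ x : ℕ, 1 ≤ x →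
        ({n : ℕ | 1 ≤ n ∧ n ≤ x ∧ ¬ SmallOrder ε n}.ncard : ℝ) ≤ K * x * Real.exp (-(c * √(Real.log x)))) ∧
      ∀ fs : List (ℕ → ℕ), (∀ f ∈ fs, PD f) → ∃ c K : ℝ, 0 < c ∧ ∀ x : ℕ, 1 ≤ x →
        ({m : ℕ | 1 ≤ m ∧ m ≤ x ∧ ¬ SmallOrder ε (comp fs m)}.ncard : ℝ) ≤
          K * x * Real.exp (-(c * Real.log x ^ (1 / ((fs.length : ℝ) + 2))))) ∧
    (∀ f : ℕ → ℕ, (∀ a b : ℕ, Nat.Coprime a b → f (a * b) = f a + f b) →
      (∃ C : ℕ, ∀ q j : ℕ, q.Prime → 1 ≤ j → f (q ^ j) ≤ C * q ^ j) →
      (∃ P : ℕ, ∀ p q : ℕ, p.Prime → q.Prime → P ≤ p → P ≤ q → f p = f q → p = q) → PD f) ∧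
    (PD (fun n => n.primeFactors.sup id) ∧ PD (fun n => sInf {k : ℕ | n ∣ k.factorial})) := by
  refine ⟨fun ε hε => ?_, fun f a1 a2 a3 => pd_additive a1 a2 a3, ⟨pd_largest, pd_kempner⟩⟩
  have hδ : 0 < ε / (2 * (1 + ε)) := by positivity
  have hM : ∀ n y : ℕ, 0 ≤ n → 0 < n → S n ≤ y → (2 : ℝ) ≤ (n : ℝ) ^ (ε / (2 * (1 + ε))) →
      GoodDeg y (S n) ((n : ℝ) ^ (ε / (2 * (1 + ε)))) n → SmallOrder ε n :=
    fun n y _ h2 h3 _ h5 => small_of_good hε h2 h3 h5
  exact ⟨orders hδ 0 hM, fun fs hfs => values hδ 0 hM fs hfs⟩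

end Pool.Agent.Results.MP_34d05d_al.FewExceptionalOrders
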